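import Pool.Agent.WR3.StmtsC

/-!
WR3, row PRH: positivity of the limit.
-/

namespace Pool.Agent.WR3.H76

open Pool.Agent.WIR Pool.Agent.WR2 Pool.Agent.WR3
open scoped BigOperators ENNReal Topology
open Filter

theorem T_pos {b : ℕ} (h : 0 < b) : 0 < T b := by
  unfold T
  split_ifs with h1 <;> omega

theorem iter_pos {b : ℕ} (h : 0 < b) (j : ℕ) : 0 < T^[j] b := by
  induction j with
  | zero => exact h
  | succ j ih => rw [Function.iterate_succ_apply']; exact T_pos ih

theorem FR_nonneg (a : ℕ) (x : ℝ) : 0 ≤ FR a x := by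
  unfold FR
  apply Finset.sum_nonneg
  intro c _
  unfold mu
  positivity

/-- the difference of the values at the powers of two is large. -/
theorem diff_ge (hR : RsnStmt) {b : ℕ} {c : ℝ} {n0 : ℕ} (hb : 0 < b)
    (hD : Dn c n0 b) (n : ℕ) (hn : n0 ≤ n + 1) :
    c * 2 ^ (n + 1) ≤ FR b (2 ^ (n + 1)) - FR b (2 ^ n) := by
  rcases hD (n + 1) hn with ⟨L, hL⟩
  rcases hR b hb n with ⟨h1, h2⟩
  have h3 : ((∑ l ∈ Finset.range L, (uT (Mz (n + 1) l) l b : ℝ≥0∞))) ≤ sN (n + 1) b := by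
    unfold sN
    exact ENNReal.sum_le_tsum _
  have h4 : ENNReal.ofReal (∑ l ∈ Finset.range L, (uT (Mz (n + 1) l) l b : ℝ))
      = ∑ l ∈ Finset.range L, (uT (Mz (n + 1) l) l b : ℝ≥0∞) := by
    rw [ENNReal.ofReal_sum_of_nonneg (fun i _ => by positivity)]
    apply Finset.sum_congr rfl
    intro i _
    exact ENNReal.ofReal_natCast _
  rw [← h4, h2] at h3
  have h5 : (∑ l ∈ Finset.range L, (uT (Mz (n + 1) l) l b : ℝ))
      ≤ FR b (2 ^ (n + 1)) - FR b (2 ^ n) := by
    rwa [ENNReal.ofReal_le_ofReal_iff (by linarith)] at h3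
  exact le_trans hL h5

theorem base (hR : RsnStmt) {b : ℕ} {c : ℝ} {n0 : ℕ} {ρ : ℝ} (hb : 0 < b) (hc : 0 < c)
    (hD : Dn c n0 b) (ht : Tendsto (fun x : ℝ => FR b x / x) atTop (𝓝 ρ)) : 0 < ρ := by
  have hp : Tendsto (fun n : ℕ => (2 : ℝ) ^ n) atTop atTop :=
    tendsto_pow_atTop_atTop_of_one_lt (by norm_num)
  have h1 : Tendsto (fun n : ℕ => FR b (2 ^ n) / 2 ^ n) atTop (𝓝 ρ) := ht.comp hp
  have h2 : Tendsto (fun n : ℕ => FR b (2 ^ (n + 1)) / 2 ^ (n + 1)) atTop (𝓝 ρ) :=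
    (tendsto_add_atTop_iff_nat (f := fun n : ℕ => FR b (2 ^ n) / 2 ^ n) 1).2 h1
  have h3 : Tendsto (fun n : ℕ => FR b (2 ^ (n + 1)) / 2 ^ (n + 1) - (FR b (2 ^ n) / 2 ^ n) / 2)
      atTop (𝓝 (ρ - ρ / 2)) := h2.sub (h1.div_const 2)
  have h4 : c ≤ ρ - ρ / 2 := by
    refine ge_of_tendsto h3 ?_
    filter_upwards [eventually_ge_atTop n0] with n hn
    have h5 := diff_ge hR hb hD n (by omega)
    have h6 : (0 : ℝ) < 2 ^ n := by positivity
    have h7 : FR b (2 ^ (n + 1)) / 2 ^ (n + 1) - (FR b (2 ^ n) / 2 ^ n) / 2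
        = (FR b (2 ^ (n + 1)) - FR b (2 ^ n)) / 2 ^ (n + 1) := by
      rw [pow_succ]
      field_simp
    rw [h7, le_div_iff₀ (by positivity)]
    exact h5
  linarith

/-- one step forward keeps positivity. -/
theorem step (hF : RfuStmt) {b : ℕ} {ρ' ρ : ℝ} (hb : 0 < b) (hp : 0 < ρ')
    (h' : Tendsto (fun x : ℝ => FR b x / x) atTop (𝓝 ρ'))
    (h : Tendsto (fun x : ℝ => FR (T b) x / x) atTop (𝓝 ρ)) : 0 < ρ := by
  have hTb : 0 < T b := T_pos hb
  rcases Nat.mod_two_eq_zero_or_one b with he | ho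
  · -- even case
    have hT : 2 * T b = b := by
      unfold T
      rw [if_neg (by omega)]
      omega
    have h1 : Tendsto (fun x : ℝ => FR b (x / 2) / (x / 2)) atTop (𝓝 ρ') :=
      h'.comp (tendsto_id.atTop_div_const (by norm_num : (0 : ℝ) < 2))
    have h2 : Tendsto (fun x : ℝ => (FR b (x / 2) / (x / 2)) / 2) atTop (𝓝 (ρ' / 2)) :=
      h1.div_const 2
    have h3 : ρ' / 2 ≤ ρ := by
      refine le_of_tendsto_of_tendsto h2 h ?_
      filter_upwards [eventually_gt_atTop (0 : ℝ)] with x hx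
      have h4 := hF (T b) hTb x hx.le
      rw [hT] at h4
      have h5 : FR b (x / 2) ≤ FR (T b) x := by
        have e1 : (0 : ℝ) ≤ (if 1 ≤ x then 1 else 0) := by split_ifs <;> norm_num
        have e2 : (0 : ℝ) ≤ (if 3 ∣ b - 1 then FR ((b - 1) / 3) (3 * x / 2) else 0) := by
          split_ifs
          · exact FR_nonneg _ _
          · exact le_refl _
        linarith
      have h6 : (FR b (x / 2) / (x / 2)) / 2 = FR b (x / 2) / x := by
        field_simp
      rw [h6]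
      exact div_le_div_of_nonneg_right h5 hx.le
    linarith
  · -- odd case
    have hT : 2 * T b - 1 = 3 * b := by
      unfold T
      rw [if_pos ho]
      omega
    have h1 : Tendsto (fun x : ℝ => FR b (3 * x / 2) / (3 * x / 2)) atTop (𝓝 ρ') := by
      have e : Tendsto (fun x : ℝ => 3 * x / 2) atTop atTop :=
        (tendsto_id.const_mul_atTop (by norm_num : (0 : ℝ) < 3)).atTop_div_const
          (by norm_num : (0 : ℝ) < 2)
      exact h'.comp e
    have h2 : Tendsto (fun x : ℝ => (FR b (3 * x / 2) / (3 * x / 2)) * (3 / 2)) atTop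
        (𝓝 (ρ' * (3 / 2))) := h1.mul_const _
    have h3 : ρ' * (3 / 2) ≤ ρ := by
      refine le_of_tendsto_of_tendsto h2 h ?_
      filter_upwards [eventually_gt_atTop (0 : ℝ)] with x hx
      have h4 := hF (T b) hTb x hx.le
      rw [hT, if_pos (Dvd.intro b rfl), Nat.mul_div_cancel_left b (by norm_num)] at h4
      have h5 : FR b (3 * x / 2) ≤ FR (T b) x := by
        have e1 : (0 : ℝ) ≤ (if 1 ≤ x then 1 else 0) := by split_ifs <;> norm_num
        have e2 : (0 : ℝ) ≤ FR (2 * T b) (x / 2) := FR_nonneg _ _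
        linarith
      have h6 : (FR b (3 * x / 2) / (3 * x / 2)) * (3 / 2) = FR b (3 * x / 2) / x := by
        field_simp
      rw [h6]
      exact div_le_div_of_nonneg_right h5 hx.le
    linarith

/-- **Row PRH**. -/
theorem prh (hR : RsnStmt) (hF : RfuStmt) (hH : RhoStmt) : PrhStmt := by
  intro b j c n0 ρ hb hc hD
  revert ρ
  induction j with
  | zero =>
    intro ρ ht
    exact base hR hb hc hD ht
  | succ j ih =>
    intro ρ ht
    rcases hH (T^[j] b) (iter_pos hb j) with ⟨ρ', _, h'⟩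
    have hpos : 0 < ρ' := ih ρ' h'
    rw [Function.iterate_succ_apply'] at ht
    exact step hF (iter_pos hb j) hpos h' ht

end Pool.Agent.WR3.H76
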